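import Pool.Agent.Helper37.KDB.Extra

/-! Project KDB, piece D1. -/

set_option autoImplicit false

namespace KDB.I.D1

open MeasureTheory KDB
open scoped ENNReal

variable (p : Par)

theorem tau_succ (k : ℕ) : p.tau (k + 1) = p.L * p.tau k := by
  simp only [Par.tau]
  rw [show k + 1 + p.q = (k + p.q) + 1 by omega, pow_succ]
  ring

theorem W_b (k : ℕ) : p.W (k + p.b) = p.tau (k + 1) := by
  simp only [Par.tau, Par.W, Par.b]
  rw [show k + (p.q + 1) = k + 1 + p.q by omega]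

theorem W_ell (k : ℕ) : p.W k * p.ell = p.tau k := by
  simp only [Par.tau, Par.W, Par.ell]
  rw [pow_add]
  ring

theorem h_tau (hp : p.Ok) (k : ℕ) : p.h * p.tau k = (p.L : ℝ) ^ k := by
  have hH : (p.H : ℝ) ≠ 0 := by
    have := hp.hH
    positivity
  have hL : (p.L : ℝ) ≠ 0 := by
    have h := hp.hL
    have h0 : 0 < p.L := by omega
    positivity
  simp only [Par.h, Par.tau]
  push_cast
  rw [pow_add]
  field_simp

theorem xi_eq (k : ℕ) : p.xi k = p.rho k * (p.L : ℝ) ^ k := by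
  simp only [Par.xi, Par.rho]
  rw [mul_pow]

theorem hrem_bounds (hp : p.Ok) (k j : ℕ) (hj : p.inA k j) :
    (p.L : ℝ) ^ k * (1 - 1 / p.ell) ≤ p.hrem k j ∧ p.hrem k j ≤ (p.L : ℝ) ^ k := by
  obtain ⟨h1, h2⟩ := hj
  have hL := hp.hL
  have hL2 : 1 ≤ p.L / 2 := by omega
  have hell : (p.ell : ℝ) ≠ 0 := by
    have h0 : 0 < p.L := by omega
    have : 0 < p.ell := by
      simp only [Par.ell]
      positivity
    positivity
  have hh : 0 ≤ p.h := by
    simp only [Par.h]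
    positivity
  have hW : p.h * p.W k = (p.L : ℝ) ^ k / p.ell := by
    rw [eq_div_iff hell, mul_assoc, ← h_tau p hp k, ← W_ell p k]
    push_cast
    ring
  have hT := h_tau p hp k
  have c1 : (((p.L / 2 : ℕ) : ℝ) - 1) * (p.tau k : ℝ) ≤ (p.ph k j : ℝ) := by
    have h3 : (((p.L / 2 - 1) * p.tau k : ℕ) : ℝ) ≤ (p.ph k j : ℝ) := by exact_mod_cast h1
    rw [Nat.cast_mul, Nat.cast_sub hL2, Nat.cast_one] at h3
    exact h3
  have c2 : (p.ph k j : ℝ) + 1 ≤ (((p.L / 2 : ℕ) : ℝ) - 1) * (p.tau k : ℝ) + (p.W k : ℝ) := by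
    have h3 : ((p.ph k j + 1 : ℕ) : ℝ) ≤ (((p.L / 2 - 1) * p.tau k + p.W k : ℕ) : ℝ) := by
      exact_mod_cast h2
    rw [Nat.cast_add, Nat.cast_add, Nat.cast_mul, Nat.cast_sub hL2, Nat.cast_one] at h3
    exact h3
  have e1 : (p.L : ℝ) ^ k * (1 - 1 / p.ell) = p.h * ((p.tau k : ℝ) - p.W k) := by
    rw [mul_sub, mul_sub, hT, hW, mul_one, mul_one_div]
  simp only [Par.hrem]
  constructor
  · rw [e1]
    refine mul_le_mul_of_nonneg_left ?_ hh
    linarith
  · rw [← hT]
    refine mul_le_mul_of_nonneg_left ?_ hh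
    linarith

/-- noise class -/
theorem ncl_spec (x : ℝ) (hx : 0 ≤ x) : x ≤ 2 ^ Par.ncl x ∧ (Par.ncl x : ℝ) ≤ 1 + x := by
  have hm : (0 : ℝ) < max 1 x := lt_of_lt_of_le one_pos (le_max_left _ _)
  have hy : 0 ≤ Real.logb 2 (max 1 x) := Real.logb_nonneg one_lt_two (le_max_left _ _)
  constructor
  · have h1 : Real.logb 2 (max 1 x) ≤ (Par.ncl x : ℝ) := Nat.le_ceil _
    rw [Real.logb_le_iff_le_rpow one_lt_two hm, Real.rpow_natCast] at h1
    exact (le_max_right _ _).trans h1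
  · have h1 : (Par.ncl x : ℝ) < Real.logb 2 (max 1 x) + 1 := Nat.ceil_lt_add_one hy
    have h2 : Real.logb 2 (max 1 x) ≤ x := by
      rcases le_total x 1 with h | h
      · rw [max_eq_left h, Real.logb_one]
        exact hx
      · rw [max_eq_right h, Real.logb_le_iff_le_rpow one_lt_two (by linarith)]
        have h3 := one_add_mul_self_le_rpow_one_add (s := (1 : ℝ)) (by norm_num) h
        have h4 : (1 : ℝ) + 1 = 2 := by norm_num
        rw [h4, mul_one] at h3
        linarith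
    linarith

end KDB.I.D1
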