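import Pool.Agent.Helper37.KDB.Extra
import Pool.Agent.Helper37.KDB.St.P3
import Pool.Agent.Helper37.KDB.St.P8

/-! Project KDB, piece P12. -/

set_option autoImplicit false

namespace KDB.I.P12

open MeasureTheory KDB
open scoped ENNReal

variable (p : Par)

theorem pring_nonneg (hp : p.Ok) (k j : ℕ) : 0 ≤ p.pring k j := by
  have h1 : 0 ≤ p.chi k j := by
    simp only [Par.chi, Par.trap]
    split_ifs
    · exact le_max_left _ _
    · exact le_max_left _ _
    · exact le_rfl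
  simp only [Par.pring]
  exact div_nonneg (mul_nonneg hp.hmu.le h1) (Nat.cast_nonneg _)

/-- the levels of the windows of `S` that contain the step `j` -/
def lvs (S : Finset (ℕ × ℕ)) (j : ℕ) : Finset ℕ :=
  (S.filter fun x => j ∈ Finset.Ico x.2 (x.2 + p.W x.1)).image Prod.fst

/-- the hits at the step `j` -/
def hits (S : Finset (ℕ × ℕ)) (j : ℕ) : Set (Nz p.d) :=
  ((fun k => k + 2) '' (lvs p S j : Set ℕ)) ×ˢ (({true} : Set Bool) ×ˢ Set.univ)

theorem hits_meas (S : Finset (ℕ × ℕ)) (j : ℕ) : MeasurableSet (hits p S j) := by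
  refine MeasurableSet.prod (MeasurableSet.of_discrete) (MeasurableSet.prod ?_ MeasurableSet.univ)
  exact MeasurableSet.of_discrete

theorem sgLaw_true : sgLaw {true} = (2 : ℝ≥0∞)⁻¹ := by
  simp [sgLaw]

theorem sgLaw_univ : sgLaw Set.univ = 1 := by
  simp [sgLaw, ENNReal.inv_two_add_inv_two]

theorem labLaw_ge (S : Finset (ℕ × ℕ)) (hS : ∀ x ∈ S, x.1 < p.n) (j : ℕ) :
    ∑ k ∈ lvs p S j, ENNReal.ofReal (p.pring k j) ≤
      p.labLaw j ((fun k => k + 2) '' (lvs p S j : Set ℕ)) := by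
  have hsub : lvs p S j ⊆ Finset.range p.n := by
    intro k hk
    obtain ⟨x, hx, rfl⟩ := Finset.mem_image.1 hk
    exact Finset.mem_range.2 (hS x (Finset.mem_filter.1 hx).1)
  have h1 : ∑ k ∈ lvs p S j, ENNReal.ofReal (p.pring k j) ≤
      (∑ k ∈ Finset.range p.n, ENNReal.ofReal (p.pring k j) • Measure.dirac (k + 2))
        ((fun k => k + 2) '' (lvs p S j : Set ℕ)) := by
    rw [Measure.finsetSum_apply]
    refine le_trans (le_of_eq ?_) (Finset.sum_le_sum_of_subset hsub)
    refine Finset.sum_congr rfl fun k hk => ?_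
    rw [Measure.smul_apply, Measure.dirac_apply_of_mem, smul_eq_mul, mul_one]
    exact ⟨k, hk, rfl⟩
  refine h1.trans ?_
  simp only [Par.labLaw, Measure.add_apply]
  exact le_add_left le_rfl

theorem step_hits (hp : p.Ok) (hH : p.Hok) (S : Finset (ℕ × ℕ)) (hS : ∀ x ∈ S, x.1 < p.n)
    (j : ℕ) : ENNReal.ofReal (∑ k ∈ lvs p S j, p.pring k j / 2) ≤ p.stepLaw j (hits p S j) := by
  have hl := KDB.labLaw_prob p hp hH j
  have hs := KDB.stepLaw_prob p hp hH j
  set rest : Measure (V p.d × V p.d × (V p.d × V p.d)) :=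
    p.kickLaw.prod ((uLaw p.d).prod (jitLaw p.d)) with hrest
  have e1 : p.stepLaw j = (p.labLaw j).prod (sgLaw.prod rest) := rfl
  haveI : SFinite sgLaw := by
    unfold sgLaw
    infer_instance
  haveI : SFinite rest := by
    rw [hrest]
    unfold Par.kickLaw uLaw jitLaw
    infer_instance
  have e2 : rest Set.univ = 1 := by
    have h1 : p.stepLaw j Set.univ = 1 := hs.measure_univ
    rw [e1, ← Set.univ_prod_univ, Measure.prod_prod, hl.measure_univ, one_mul,
      ← Set.univ_prod_univ, Measure.prod_prod, sgLaw_univ, one_mul] at h1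
    exact h1
  rw [e1, hits, Measure.prod_prod, Measure.prod_prod, sgLaw_true, e2, mul_one]
  refine le_trans (le_of_eq ?_) (mul_le_mul_left (labLaw_ge p S hS j) _)
  rw [← Finset.sum_div, ENNReal.ofReal_div_of_pos two_pos, ENNReal.ofReal_sum_of_nonneg
    (fun k _ => pring_nonneg p hp k j), ENNReal.ofReal_ofNat, ENNReal.div_eq_inv_mul, mul_comm]

theorem no_ring (hp : p.Ok) (hH : p.Hok) (N : ℕ) (S : Finset (ℕ × ℕ))
    (hS : ∀ x ∈ S, x.1 < p.n ∧ x.2 + p.W x.1 ≤ N)
    (hdis : ∀ x ∈ S, ∀ y ∈ S, x.1 = y.1 → x ≠ y →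
      Disjoint (Finset.Ico x.2 (x.2 + p.W x.1)) (Finset.Ico y.2 (y.2 + p.W y.1))) :
    p.pathLaw N {om | ∀ x ∈ S, ∀ j ∈ Finset.Ico x.2 (x.2 + p.W x.1),
        ¬ ((p.exte N om j).lab = x.1 + 2 ∧ (p.exte N om j).sb = true)} ≤
      ENNReal.ofReal (Real.exp (-(∑ x ∈ S, ∑ j ∈ Finset.Ico x.2 (x.2 + p.W x.1),
        p.pring x.1 j / 2))) := by
  classical
  have hS1 : ∀ x ∈ S, x.1 < p.n := fun x hx => (hS x hx).1
  have key := KDB.chernoff p hp hH N (fun j => (hits p S j)ᶜ.indicator 1)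
    (fun j => measurable_one.indicator (hits_meas p S j).compl)
    (fun j => -∑ k ∈ lvs p S j, p.pring k j / 2) ?_
    {om | ∀ x ∈ S, ∀ j ∈ Finset.Ico x.2 (x.2 + p.W x.1),
        ¬ ((p.exte N om j).lab = x.1 + 2 ∧ (p.exte N om j).sb = true)} 0 ?_
  · refine key.trans (ENNReal.ofReal_le_ofReal (Real.exp_le_exp.2 (le_of_eq ?_)))
    rw [sub_zero, Finset.sum_neg_distrib, neg_inj]
    have h1 : ∀ x ∈ S, ∑ j ∈ Finset.Ico x.2 (x.2 + p.W x.1), p.pring x.1 j / 2 =
        ∑ j ∈ Finset.range N, if j ∈ Finset.Ico x.2 (x.2 + p.W x.1) then p.pring x.1 j / 2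
          else 0 := by
      intro x hx
      rw [← Finset.sum_filter]
      refine Finset.sum_congr ?_ fun _ _ => rfl
      ext j
      rw [Finset.mem_filter, Finset.mem_range]
      refine ⟨fun h => ⟨?_, h⟩, fun h => h.2⟩
      have h2 := (hS x hx).2
      have h3 := (Finset.mem_Ico.1 h).2
      omega
    rw [Finset.sum_congr rfl h1, Finset.sum_comm]
    refine Finset.sum_congr rfl fun j _ => ?_
    rw [← Finset.sum_filter, lvs, Finset.sum_image]
    intro x hx y hy hxy
    by_contra hne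
    have hx' := Finset.mem_filter.1 hx
    have hy' := Finset.mem_filter.1 hy
    exact Finset.disjoint_left.1 (hdis x hx'.1 y hy'.1 hxy hne) hx'.2 hy'.2
  · intro j _
    have hs := KDB.stepLaw_prob p hp hH j
    rw [lintegral_indicator_one (hits_meas p S j).compl, prob_compl_eq_one_sub (hits_meas p S j)]
    have h0 : 0 ≤ ∑ k ∈ lvs p S j, p.pring k j / 2 :=
      Finset.sum_nonneg fun k _ => div_nonneg (pring_nonneg p hp k j) two_pos.le
    calc 1 - p.stepLaw j (hits p S j)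
        ≤ 1 - ENNReal.ofReal (∑ k ∈ lvs p S j, p.pring k j / 2) :=
          tsub_le_tsub_left (step_hits p hp hH S hS1 j) 1
      _ = ENNReal.ofReal (1 - ∑ k ∈ lvs p S j, p.pring k j / 2) := by
          rw [ENNReal.ofReal_sub _ h0, ENNReal.ofReal_one]
      _ ≤ _ := by
          refine ENNReal.ofReal_le_ofReal ?_
          have := Real.add_one_le_exp (-∑ k ∈ lvs p S j, p.pring k j / 2)
          linarith
  · intro om hom
    rw [Real.exp_zero, ENNReal.ofReal_one]
    refine le_of_eq (Finset.prod_eq_one fun j _ => ?_).symm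
    rw [Set.indicator_of_mem, Pi.one_apply]
    intro hmem
    obtain ⟨⟨k, hk, hk2⟩, hb, _⟩ := hmem
    obtain ⟨x, hx, rfl⟩ := Finset.mem_image.1 (Finset.mem_coe.1 hk)
    obtain ⟨hx1, hx2⟩ := Finset.mem_filter.1 hx
    have he : p.exte N om j = om j := by
      simp [Par.exte]
    refine hom x hx1 j hx2 ⟨?_, ?_⟩
    · rw [he]
      exact hk2.symm
    · rw [he]
      exact hb

end KDB.I.P12
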